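import Pool.Agent.LE.StmtsC

/-!
# CNT: the counting lemma of the Besicovitch step
-/

set_option autoImplicit false

open Finset

noncomputable section

namespace Pool.Agent.LE.H96C

open Pool.Agent.Anderson Pool.Agent.Loc

variable {d : ℕ}

theorem sd_pt (a k k' : Site d) (s : ℕ) :
    sd (a + sm s k) (a + sm s k') = s * sd k k' := by
  apply le_antisymm
  · rw [sd_le_iff]
    intro i
    have h : |k i - k' i| ≤ (sd k k' : ℕ) := sd_le_iff.1 le_rfl i
    have e : (a + sm s k) i - (a + sm s k') i = (s : ℤ) * (k i - k' i) := by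
      simp only [Pi.add_apply, sm]
      ring
    rw [e, abs_mul, Nat.abs_cast]
    push_cast
    exact mul_le_mul_of_nonneg_left h (by positivity)
  · rcases Nat.eq_zero_or_pos s with h0 | hs
    · subst h0
      simp
    · rw [mul_comm, ← Nat.le_div_iff_mul_le hs, sd_le_iff]
      intro i
      have h : |(a + sm s k) i - (a + sm s k') i| ≤ (sd (a + sm s k) (a + sm s k') : ℕ) :=
        sd_le_iff.1 le_rfl i
      have e : (a + sm s k) i - (a + sm s k') i = (s : ℤ) * (k i - k' i) := by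
        simp only [Pi.add_apply, sm]
        ring
      rw [e, abs_mul, Nat.abs_cast] at h
      push_cast
      rw [Int.le_ediv_iff_mul_le (by exact_mod_cast hs)]
      linarith [mul_comm (s : ℤ) |k i - k' i|]

theorem sd_a_pt (a k : Site d) (s : ℕ) : sd a (a + sm s k) = s * sd 0 k := by
  have h := sd_pt a 0 k s
  have e : a + sm s (0 : Site d) = a := by
    funext i
    simp [sm]
  rwa [e] at h

/-- the mesh point near `v` -/
def near (a : Site d) (s : ℕ) (v : Site d) : Site d := fun i => (v i - a i) / (s : ℤ)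

theorem sd_near (a v : Site d) {s : ℕ} (hs : 1 ≤ s) : sd (a + sm s (near a s v)) v ≤ s := by
  rw [sd_le_iff]
  intro i
  have hs' : (0 : ℤ) < s := by exact_mod_cast hs
  have h1 := Int.emod_nonneg (v i - a i) hs'.ne'
  have h2 := Int.emod_lt_of_pos (v i - a i) hs'
  have h3 := Int.emod_add_mul_ediv (v i - a i) (s : ℤ)
  simp only [Pi.add_apply, sm, near]
  rw [abs_le]
  constructor <;> linarith

/-- integers in an interval -/
theorem card_int (S : Finset ℕ) (w A r : ℝ) (hw : 0 < w)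
    (h : ∀ x ∈ S, |w * x - A| ≤ r) (hr : 0 ≤ r) : (S.card : ℝ) ≤ 2 * r / w + 1 := by
  rcases S.eq_empty_or_nonempty with h0 | h0
  · subst h0
    simp only [card_empty, Nat.cast_zero]
    positivity
  · have h1 := h _ (S.min'_mem h0)
    have h2 := h _ (S.max'_mem h0)
    have h3 : S ⊆ Finset.Icc (S.min' h0) (S.max' h0) := by
      intro x hx
      rw [Finset.mem_Icc]
      exact ⟨S.min'_le x hx, S.le_max' x hx⟩
    have h4 := card_le_card h3
    rw [Nat.card_Icc] at h4
    have h5 : S.min' h0 ≤ S.max' h0 := S.min'_le _ (S.max'_mem h0)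
    have h6 : (S.card : ℝ) ≤ (S.max' h0 : ℝ) - S.min' h0 + 1 := by
      have : S.card + S.min' h0 ≤ S.max' h0 + 1 := by omega
      have : (S.card : ℝ) + S.min' h0 ≤ S.max' h0 + 1 := by exact_mod_cast this
      linarith
    have h7 : w * ((S.max' h0 : ℝ) - S.min' h0) ≤ 2 * r := by
      rw [abs_le] at h1 h2
      nlinarith [h1.1, h2.2]
    have h8 : ((S.max' h0 : ℝ) - S.min' h0) ≤ 2 * r / w := by
      rw [le_div_iff₀ hw]
      linarith
    linarith

/-- the target values -/
theorem fiber_card {m : ℕ} (F : Fin d → ℝ) (w r : ℝ) (hw : 0 < w) (hr : 0 ≤ r)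
    (S : Finset (Fin d → ℕ)) (hS : ∀ κ ∈ S, (∀ i, κ i ∈ Finset.Icc 1 m) ∧
      ∀ i, |w * (κ i : ℝ) - F i| ≤ r) : (S.card : ℝ) ≤ (2 * r / w + 1) ^ d := by
  classical
  have h1 : S ⊆ Fintype.piFinset fun i =>
      (Finset.Icc 1 m).filter fun x : ℕ => |w * (x : ℝ) - F i| ≤ r := by
    intro κ hκ
    rw [Fintype.mem_piFinset]
    intro i
    rw [Finset.mem_filter]
    exact ⟨(hS κ hκ).1 i, (hS κ hκ).2 i⟩
  have h2 := card_le_card h1
  rw [Fintype.card_piFinset] at h2
  calc (S.card : ℝ) ≤ ((∏ i : Fin d, ((Finset.Icc 1 m).filter fun x : ℕ =>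
        |w * (x : ℝ) - F i| ≤ r).card : ℕ) : ℝ) := by exact_mod_cast h2
    _ = ∏ i : Fin d, (((Finset.Icc 1 m).filter fun x : ℕ =>
        |w * (x : ℝ) - F i| ≤ r).card : ℝ) := by push_cast; rfl
    _ ≤ ∏ _i : Fin d, (2 * r / w + 1) := by
        refine Finset.prod_le_prod (fun i _ => by positivity) fun i _ => ?_
        exact card_int _ w (F i) r hw (fun x hx => (Finset.mem_filter.1 hx).2) hr
    _ = (2 * r / w + 1) ^ d := by simp

/-- the face distance -/
theorem exists_face (D : Site d → Site d → ℝ) (a : Site d) (s n W : ℕ) (t h : ℝ)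
    (hn : n ≤ W)
    (hsym : ∀ x y, D x y = D y x)
    (htri : ∀ x ∈ box a (s * W), ∀ u ∈ box a (s * W), ∀ y ∈ box a (s * W),
      D x y ≤ D x u + D u y + t)
    (hdiag : ∀ k ∈ box (0 : Site d) n, D (a + sm s k) (a + sm s k) ≤ t)
    (hface : ∀ k ∈ box (0 : Site d) n, ∀ k' ∈ box (0 : Site d) n, ∀ i, k i = -(n : ℤ) →
      k' i = (n : ℤ) → h ≤ D (a + sm s k) (a + sm s k')) :
    ∃ f : Site d → Fin d → ℝ,
      (∀ x ∈ box a (s * W), ∀ y ∈ box a (s * W), ∀ i, |f x i - f y i| ≤ D x y + t) ∧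
      (∀ k ∈ box (0 : Site d) n, ∀ i, k i = -(n : ℤ) → f (a + sm s k) i ≤ t) ∧
      (∀ k ∈ box (0 : Site d) n, ∀ i, k i = (n : ℤ) → h ≤ f (a + sm s k) i) := by
  classical
  have hne : ∀ i : Fin d, ((box (0 : Site d) n).filter fun k => k i = -(n : ℤ)).Nonempty := by
    intro i
    refine ⟨fun _ => -(n : ℤ), ?_⟩
    rw [Finset.mem_filter, mem_box, sd_le_iff]
    refine ⟨fun j => ?_, rfl⟩
    simp
  have hbig : ∀ k ∈ box (0 : Site d) n, a + sm s k ∈ box a (s * W) := by
    intro k hk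
    rw [mem_box, sd_a_pt]
    exact Nat.mul_le_mul_left s ((mem_box.1 hk).trans hn)
  refine ⟨fun x i => ((box (0 : Site d) n).filter fun k => k i = -(n : ℤ)).inf' (hne i)
    fun k => D (a + sm s k) x, ?_, ?_, ?_⟩
  · have key : ∀ x ∈ box a (s * W), ∀ y ∈ box a (s * W), ∀ i,
        ((box (0 : Site d) n).filter fun k => k i = -(n : ℤ)).inf' (hne i)
          (fun k => D (a + sm s k) x) ≤
        ((box (0 : Site d) n).filter fun k => k i = -(n : ℤ)).inf' (hne i)
          (fun k => D (a + sm s k) y) + (D x y + t) := by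
      intro x hx y hy i
      obtain ⟨k, hk, e⟩ := Finset.exists_mem_eq_inf' (hne i) (fun k => D (a + sm s k) y)
      rw [e]
      refine (Finset.inf'_le _ hk).trans ?_
      have h1 := htri _ (hbig k (Finset.mem_filter.1 hk).1) y hy x hx
      rw [hsym y x] at h1
      linarith
    intro x hx y hy i
    have h1 := key x hx y hy i
    have h2 := key y hy x hx i
    rw [hsym y x] at h2
    rw [abs_le]
    constructor <;> linarith
  · intro k hk i hi
    refine (Finset.inf'_le _ (Finset.mem_filter.2 ⟨hk, hi⟩)).trans ?_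
    exact hdiag k hk
  · intro k hk i hi
    refine Finset.le_inf' _ _ fun k' hk' => ?_
    rw [Finset.mem_filter] at hk'
    exact hface k' hk'.1 k hk i hk'.2 hi

/-- CNT -/
theorem cnt (hDmi : DmiStmt) : CntStmt := by
  classical
  intro d D a s n M m q t h cs c G hd hs hn hM hdq hcs ht hts hmh hsym htri hdiag hface hc0 hc hG
  obtain ⟨W, hW⟩ : ∃ W, W = n + 4 * M + 3 := ⟨_, rfl⟩
  rw [← hW] at htri hc ⊢
  have hsR : (1 : ℝ) ≤ s := by exact_mod_cast hs
  obtain ⟨f, hf1, hf2, hf3⟩ := exists_face D a s n W t h (by omega) hsym htri hdiag hface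
  have hbigW : ∀ k ∈ box (0 : Site d) W, a + sm s k ∈ box a (s * W) := by
    intro k hk
    rw [mem_box, sd_a_pt]
    exact Nat.mul_le_mul_left s (mem_box.1 hk)
  have hnW : ∀ k ∈ box (0 : Site d) n, k ∈ box (0 : Site d) W := by
    intro k hk
    rw [mem_box] at hk ⊢
    omega
  obtain ⟨w, hwdef⟩ : ∃ w : ℝ, w = 8 * cs * s := ⟨_, rfl⟩
  have hcs0 : 0 < cs := by linarith
  have hw : 0 < w := by rw [hwdef]; positivity
  have hcss : (s : ℝ) ≤ cs * s := by nlinarith
  have hw2 : 2 * (cs * s) + s + 3 * t < w / 2 := by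
    rw [hwdef]
    nlinarith
  obtain ⟨T, hT⟩ : ∃ T : Finset (Fin d → ℕ), T = Fintype.piFinset fun _ => Finset.Icc 1 m :=
    ⟨_, rfl⟩
  have hcardT : T.card = m ^ d := by
    rw [hT, Fintype.card_piFinset]
    simp
  have hTm : ∀ κ ∈ T, ∀ i, κ i ∈ Finset.Icc 1 m := by
    intro κ hκ
    rw [hT, Fintype.mem_piFinset] at hκ
    exact hκ
  -- the mesh points of the targets
  have hk : ∀ κ ∈ T, ∃ k ∈ box (0 : Site d) n,
      ∀ i, |w * (κ i : ℝ) - f (a + sm s k) i| ≤ c k * s + t := by
    intro κ hκ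
    have hκ' := hTm κ hκ
    obtain ⟨k, hk, hk2⟩ := hDmi d n (fun k i => f (a + sm s k) i) t h
      (fun i => w * (κ i : ℝ)) hn hf2 hf3 (fun i => by
        have h1 := Finset.mem_Icc.1 (hκ' i)
        have h2 : (1 : ℝ) ≤ κ i := by exact_mod_cast h1.1
        have h3 : (κ i : ℝ) ≤ m := by exact_mod_cast h1.2
        constructor
        · have : w ≤ w * κ i := by nlinarith
          nlinarith
        · have : w * κ i ≤ w * m := mul_le_mul_of_nonneg_left h3 hw.le
          rw [hwdef] at this ⊢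
          linarith)
    refine ⟨k, hk, fun i => ?_⟩
    obtain ⟨k', hk', h1, h2⟩ := hk2 i
    refine h2.trans ?_
    have h3 := hf1 _ (hbigW k' (hnW k' hk')) _ (hbigW k (hnW k hk)) i
    have h4 := hc k (hnW k hk) (a + sm s k') (by
      rw [mem_box, sd_pt]
      calc s * sd k k' ≤ s * 1 := Nat.mul_le_mul_left s h1
        _ = s := mul_one s)
    rw [hsym] at h3
    linarith
  choose! kk hkk1 hkk2 using hk
  have huniq : ∀ (κ κ' : Fin d → ℕ) (F : Fin d → ℝ), (∀ i, |w * (κ i : ℝ) - F i| < w / 2) →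
      (∀ i, |w * (κ' i : ℝ) - F i| < w / 2) → κ = κ' := by
    intro κ κ' F h1 h2
    funext i
    have h3 := abs_lt.1 (h1 i)
    have h4 := abs_lt.1 (h2 i)
    have h5 : w * ((κ i : ℝ) - κ' i) < w * 1 := by linarith [h3.2, h4.1]
    have h6 : w * ((κ' i : ℝ) - κ i) < w * 1 := by linarith [h3.1, h4.2]
    have h7 : (κ i : ℝ) < κ' i + 1 := by linarith [lt_of_mul_lt_mul_left h5 hw.le]
    have h8 : (κ' i : ℝ) < κ i + 1 := by linarith [lt_of_mul_lt_mul_left h6 hw.le]
    have h9 : κ i < κ' i + 1 := by exact_mod_cast h7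
    have h10 : κ' i < κ i + 1 := by exact_mod_cast h8
    omega
  -- small c: the mesh point determines the target
  have hinj : ∀ κ ∈ T, ∀ κ' ∈ T, c (kk κ) ≤ cs → c (kk κ') ≤ cs → kk κ = kk κ' → κ = κ' := by
    intro κ hκ κ' hκ' h1 h2 h3
    refine huniq κ κ' (fun i => f (a + sm s (kk κ)) i) (fun i => ?_) (fun i => ?_)
    · have h4 := hkk2 κ hκ i
      have h5 : c (kk κ) * s ≤ cs * s := mul_le_mul_of_nonneg_right h1 (by positivity)
      nlinarith
    · have h4 := hkk2 κ' hκ' i
      rw [← h3] at h4 h2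
      have h5 : c (kk κ) * s ≤ cs * s := mul_le_mul_of_nonneg_right h1 (by positivity)
      nlinarith
  -- the partners
  have hpart : ∀ k ∈ G ∩ box (0 : Site d) n, ∀ j ∈ Finset.Icc 1 M, ∃ u : Site d,
      u ∈ box (0 : Site d) W ∧ k ∈ box u (4 * M + 4) ∧
      D (a + sm s k) (a + sm s u) ≤ s + c u * s + t ∧
      4 * j * s ≤ sd (a + sm s k) (a + sm s u) + s ∧
      sd (a + sm s k) (a + sm s u) ≤ 4 * j * s + 1 + s := by
    intro k hk j hj
    obtain ⟨hkG, hkn⟩ := Finset.mem_inter.1 hk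
    obtain ⟨hj1, hj2⟩ := Finset.mem_Icc.1 hj
    obtain ⟨v, hv1, hv2⟩ := hG k hkG j hj1 hj2
    have h1 := sd_near a v hs
    have h2 := sd_triangle (a + sm s k) v (a + sm s (near a s v))
    have h3 := sd_triangle (a + sm s k) (a + sm s (near a s v)) v
    rw [sd_comm v] at h2
    have h4 : sd (a + sm s k) (a + sm s (near a s v)) ≤ 4 * j * s + 1 + s := by omega
    have h5 : 4 * j * s ≤ sd (a + sm s k) (a + sm s (near a s v)) + s := by omega
    have h6 : sd k (near a s v) ≤ 4 * M + 3 := by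
      rw [sd_pt] at h4
      have h7 : 4 * j * s ≤ 4 * M * s := Nat.mul_le_mul_right s (Nat.mul_le_mul_left 4 hj2)
      have h8 : s * sd k (near a s v) < s * (4 * M + 3) + 1 := by
        have : s * (4 * M + 3) = 4 * M * s + 3 * s := by ring
        omega
      exact Nat.le_of_mul_le_mul_left (Nat.lt_succ_iff.1 h8) hs
    have h7 : near a s v ∈ box (0 : Site d) W := by
      rw [mem_box] at hkn ⊢
      have := sd_triangle 0 k (near a s v)
      omega
    have hvb : v ∈ box a (s * W) := by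
      rw [mem_box] at hkn ⊢
      have h8 := sd_triangle a (a + sm s k) v
      rw [sd_a_pt] at h8
      have h9 : s * sd 0 k ≤ s * n := Nat.mul_le_mul_left s hkn
      have h10 : 4 * j * s ≤ 4 * M * s := Nat.mul_le_mul_right s (Nat.mul_le_mul_left 4 hj2)
      have h11 : s * W = s * n + 4 * M * s + 3 * s := by rw [hW]; ring
      omega
    refine ⟨near a s v, h7, ?_, ?_, h5, h4⟩
    · rw [mem_box, sd_comm]
      omega
    · have h8 := htri _ (hbigW k (hnW k hkn)) v hvb _ (hbigW _ h7)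
      have h9 := hc _ h7 v (by rw [mem_box]; exact h1)
      rw [hsym v] at h8
      linarith
  choose! u hu1 hu2 hu3 hu4 hu5 using hpart
  have hdist : ∀ k ∈ G ∩ box (0 : Site d) n, ∀ j ∈ Finset.Icc 1 M, ∀ j' ∈ Finset.Icc 1 M,
      u k j = u k j' → j = j' := by
    have key : ∀ k ∈ G ∩ box (0 : Site d) n, ∀ j ∈ Finset.Icc 1 M, ∀ j' ∈ Finset.Icc 1 M,
        u k j = u k j' → ¬ j < j' := by
      intro k hk j hj j' hj' he hlt
      have h1 := hu5 k hk j hj
      have h2 := hu4 k hk j' hj'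
      rw [← he] at h2
      have h3 : 4 * (j + 1) * s ≤ 4 * j' * s :=
        Nat.mul_le_mul_right s (Nat.mul_le_mul_left 4 hlt)
      have h4 : 4 * (j + 1) * s = 4 * j * s + 4 * s := by ring
      omega
    intro k hk j hj j' hj' he
    rcases lt_trichotomy j j' with h1 | h1 | h1
    · exact absurd h1 (key k hk j hj j' hj' he)
    · exact h1
    · exact absurd h1 (key k hk j' hj' j hj he.symm)
  -- the four classes
  obtain ⟨Ta, hTa⟩ : ∃ Ta, Ta = T.filter fun κ => cs < c (kk κ) := ⟨_, rfl⟩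
  obtain ⟨Tb, hTb⟩ : ∃ Tb, Tb = T.filter fun κ => c (kk κ) ≤ cs ∧ kk κ ∉ G := ⟨_, rfl⟩
  obtain ⟨Tc, hTc⟩ : ∃ Tc, Tc = T.filter fun κ => (c (kk κ) ≤ cs ∧ kk κ ∈ G) ∧
    M ≤ 2 * ((Finset.Icc 1 M).filter fun j => c (u (kk κ) j) ≤ cs).card := ⟨_, rfl⟩
  obtain ⟨Te, hTe⟩ : ∃ Te, Te = T.filter fun κ => (c (kk κ) ≤ cs ∧ kk κ ∈ G) ∧
    M ≤ 2 * ((Finset.Icc 1 M).filter fun j => cs < c (u (kk κ) j)).card := ⟨_, rfl⟩
  have hsub : T ⊆ Ta ∪ (Tb ∪ (Tc ∪ Te)) := by
    intro κ hκ
    simp only [hTa, hTb, hTc, hTe, Finset.mem_union, Finset.mem_filter]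
    by_cases h1 : cs < c (kk κ)
    · exact Or.inl ⟨hκ, h1⟩
    · rw [not_lt] at h1
      by_cases h2 : kk κ ∈ G
      · have h3 : ((Finset.Icc 1 M).filter fun j => c (u (kk κ) j) ≤ cs).card +
            ((Finset.Icc 1 M).filter fun j => ¬ c (u (kk κ) j) ≤ cs).card = M := by
          rw [Finset.card_filter_add_card_filter_not]
          simp
        have h4 : ((Finset.Icc 1 M).filter fun j => ¬ c (u (kk κ) j) ≤ cs) =
            ((Finset.Icc 1 M).filter fun j => cs < c (u (kk κ) j)) := by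
          refine Finset.filter_congr fun j _ => ?_
          rw [not_le]
        rw [h4] at h3
        rcases le_total M (2 * ((Finset.Icc 1 M).filter fun j => c (u (kk κ) j) ≤ cs).card)
          with h5 | h5
        · exact Or.inr (Or.inr (Or.inl ⟨hκ, ⟨h1, h2⟩, h5⟩))
        · exact Or.inr (Or.inr (Or.inr ⟨hκ, ⟨h1, h2⟩, by omega⟩))
      · exact Or.inr (Or.inl ⟨hκ, h1, h2⟩)
  have hcard : (m : ℝ) ^ d ≤ Ta.card + (Tb.card + (Tc.card + Te.card)) := by
    have h1 := (card_le_card hsub).trans ((card_union_le _ _).trans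
      (Nat.add_le_add_left ((card_union_le _ _).trans
        (Nat.add_le_add_left (card_union_le _ _) _)) _))
    rw [hcardT] at h1
    exact_mod_cast h1
  -- numbers
  have hx : ∀ k, 0 ≤ c k / cs := fun k => div_nonneg (hc0 k) hcs0.le
  have hSn : ∑ k ∈ (box (0 : Site d) n).filter (fun k => cs < c k), (c k / cs) ^ q ≤
      ∑ k ∈ box (0 : Site d) W, (c k / cs) ^ q := by
    refine Finset.sum_le_sum_of_subset_of_nonneg ?_ fun k _ _ => pow_nonneg (hx k) q
    intro k hk
    exact hnW k (Finset.mem_filter.1 hk).1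
  have hSW : (((box (0 : Site d) W).filter fun k => cs < c k).card : ℝ) ≤
      ∑ k ∈ box (0 : Site d) W, (c k / cs) ^ q := by
    calc (((box (0 : Site d) W).filter fun k => cs < c k).card : ℝ)
        = ∑ k ∈ (box (0 : Site d) W).filter (fun k => cs < c k), (1 : ℝ) := by simp
      _ ≤ ∑ k ∈ (box (0 : Site d) W).filter (fun k => cs < c k), (c k / cs) ^ q := by
          refine Finset.sum_le_sum fun k hk => one_le_pow₀ ?_
          rw [one_le_div hcs0]
          exact (Finset.mem_filter.1 hk).2.le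
      _ ≤ _ := Finset.sum_le_sum_of_subset_of_nonneg (Finset.filter_subset _ _)
          fun k _ _ => pow_nonneg (hx k) q
  -- (a)
  have hA : (Ta.card : ℝ) ≤ 2 ^ d * ∑ k ∈ box (0 : Site d) W, (c k / cs) ^ q := by
    have hmap : ∀ κ ∈ Ta, kk κ ∈ (box (0 : Site d) n).filter fun k => cs < c k := by
      intro κ hκ
      rw [hTa, Finset.mem_filter] at hκ
      exact Finset.mem_filter.2 ⟨hkk1 κ hκ.1, hκ.2⟩
    rw [Finset.card_eq_sum_card_fiberwise hmap]
    push_cast
    calc ∑ k ∈ (box (0 : Site d) n).filter (fun k => cs < c k),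
          ((Ta.filter fun κ => kk κ = k).card : ℝ)
        ≤ ∑ k ∈ (box (0 : Site d) n).filter (fun k => cs < c k), 2 ^ d * (c k / cs) ^ q := by
          refine Finset.sum_le_sum fun k hk => ?_
          have hck : cs < c k := (Finset.mem_filter.1 hk).2
          have h0 : 0 ≤ c k * s + t := by
            have := hc0 k
            positivity
          have h1 := fiber_card (m := m) (fun i => f (a + sm s k) i) w (c k * s + t) hw h0
            (Ta.filter fun κ => kk κ = k) (by
              intro κ hκ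
              rw [Finset.mem_filter, hTa, Finset.mem_filter] at hκ
              refine ⟨hTm κ hκ.1.1, fun i => ?_⟩
              have h2 := hkk2 κ hκ.1.1 i
              rw [hκ.2] at h2
              exact h2)
          have h2 : 2 * (c k * s + t) / w + 1 ≤ 2 * (c k / cs) := by
            have h3 : 1 ≤ c k / cs := by
              rw [one_le_div hcs0]
              exact hck.le
            have h4 : 2 * (c k * s + t) / w ≤ (c k / cs) / 4 + 1 / 32 := by
              rw [div_le_iff₀ hw, hwdef]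
              have h5 : ((c k / cs) / 4 + 1 / 32) * (8 * cs * s) = 2 * (c k * s) + cs * s / 4 := by
                field_simp
                ring
              rw [h5]
              nlinarith
            linarith
          have h3 : (2 * (c k / cs)) ^ d ≤ 2 ^ d * (c k / cs) ^ q := by
            rw [mul_pow]
            refine mul_le_mul_of_nonneg_left ?_ (by positivity)
            refine pow_le_pow_right₀ ?_ hdq
            rw [one_le_div hcs0]
            exact hck.le
          exact h1.trans ((pow_le_pow_left₀ (by positivity) h2 d).trans h3)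
      _ = 2 ^ d * ∑ k ∈ (box (0 : Site d) n).filter (fun k => cs < c k), (c k / cs) ^ q := by
          rw [Finset.mul_sum]
      _ ≤ _ := mul_le_mul_of_nonneg_left hSn (by positivity)
  -- (b)
  have hB : (Tb.card : ℝ) ≤ ((box (0 : Site d) n) \ G).card := by
    have : Tb.card ≤ ((box (0 : Site d) n) \ G).card := by
      refine Finset.card_le_card_of_injOn kk (fun κ hκ => ?_) (fun κ hκ κ' hκ' he => ?_)
      · rw [hTb, Finset.mem_coe, Finset.mem_filter] at hκ
        rw [Finset.mem_coe, Finset.mem_sdiff]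
        exact ⟨hkk1 κ hκ.1, hκ.2.2⟩
      · rw [hTb, Finset.mem_coe, Finset.mem_filter] at hκ hκ'
        exact hinj κ hκ.1 κ' hκ'.1 hκ.2.1 hκ'.2.1 he
    exact_mod_cast this
  -- (c1)
  have hC : (Tc.card : ℝ) * M ≤ 2 * (2 * W + 1) ^ d := by
    have h1 : Tc.card * M ≤ 2 * (Tc.sigma fun κ =>
        (Finset.Icc 1 M).filter fun j => c (u (kk κ) j) ≤ cs).card := by
      rw [Finset.card_sigma, Finset.mul_sum, Finset.card_eq_sum_ones, Finset.sum_mul]
      refine Finset.sum_le_sum fun κ hκ => ?_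
      rw [one_mul]
      rw [hTc, Finset.mem_filter] at hκ
      exact hκ.2.2
    have h2 : (Tc.sigma fun κ =>
        (Finset.Icc 1 M).filter fun j => c (u (kk κ) j) ≤ cs).card ≤
        (box (0 : Site d) W).card := by
      refine Finset.card_le_card_of_injOn (fun p => u (kk p.1) p.2) (fun p hp => ?_)
        (fun p hp p' hp' he => ?_)
      · rw [Finset.mem_coe, Finset.mem_sigma, hTc, Finset.mem_filter, Finset.mem_filter] at hp
        rw [Finset.mem_coe]
        exact hu1 _ (Finset.mem_inter.2 ⟨hp.1.2.1.2, hkk1 _ hp.1.1⟩) _ hp.2.1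
      · rw [Finset.mem_coe, Finset.mem_sigma, hTc, Finset.mem_filter, Finset.mem_filter] at hp hp'
        have hp1 := Finset.mem_inter.2 ⟨hp.1.2.1.2, hkk1 _ hp.1.1⟩
        have hp1' := Finset.mem_inter.2 ⟨hp'.1.2.1.2, hkk1 _ hp'.1.1⟩
        have hclose : ∀ (κ : Fin d → ℕ) (j : ℕ), κ ∈ T → c (kk κ) ≤ cs →
            kk κ ∈ G ∩ box (0 : Site d) n → j ∈ Finset.Icc 1 M → c (u (kk κ) j) ≤ cs →
            ∀ i, |w * (κ i : ℝ) - f (a + sm s (u (kk κ) j)) i| < w / 2 := by
          intro κ j hκ h3 h4 h5 h6 i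
          have h7 := hkk2 κ hκ i
          have h8 := hf1 _ (hbigW _ (hnW _ (hkk1 κ hκ))) _ (hbigW _ (hu1 _ h4 _ h5)) i
          have h9 := hu3 _ h4 _ h5
          have h10 : c (kk κ) * s ≤ cs * s := mul_le_mul_of_nonneg_right h3 (by positivity)
          have h11 : c (u (kk κ) j) * s ≤ cs * s := mul_le_mul_of_nonneg_right h6 (by positivity)
          have h12 := abs_sub_le (w * (κ i : ℝ)) (f (a + sm s (kk κ)) i)
            (f (a + sm s (u (kk κ) j)) i)
          linarith
        have he' : u (kk p.1) p.2 = u (kk p'.1) p'.2 := he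
        have e1 : p.1 = p'.1 := by
          refine huniq p.1 p'.1 (fun i => f (a + sm s (u (kk p.1) p.2)) i)
            (hclose p.1 p.2 hp.1.1 hp.1.2.1.1 hp1 hp.2.1 hp.2.2) ?_
          intro i
          have h13 := hclose p'.1 p'.2 hp'.1.1 hp'.1.2.1.1 hp1' hp'.2.1 hp'.2.2 i
          rw [← he'] at h13
          exact h13
        rw [← e1] at he'
        have e2 : p.2 = p'.2 := hdist _ hp1 _ hp.2.1 _ hp'.2.1 he'
        exact Sigma.ext e1 (heq_of_eq e2)
    rw [card_box] at h2
    have h3 : Tc.card * M ≤ 2 * (2 * W + 1) ^ d := by omega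
    exact_mod_cast h3
  -- (c2)
  have hE : (Te.card : ℝ) * M ≤ 2 * ((∑ k ∈ box (0 : Site d) W, (c k / cs) ^ q) *
      (8 * M + 9) ^ d) := by
    have h1 : Te.card * M ≤ 2 * (Te.sigma fun κ =>
        (Finset.Icc 1 M).filter fun j => cs < c (u (kk κ) j)).card := by
      rw [Finset.card_sigma, Finset.mul_sum, Finset.card_eq_sum_ones, Finset.sum_mul]
      refine Finset.sum_le_sum fun κ hκ => ?_
      rw [one_mul]
      rw [hTe, Finset.mem_filter] at hκ
      exact hκ.2.2
    have h2 : (Te.sigma fun κ =>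
        (Finset.Icc 1 M).filter fun j => cs < c (u (kk κ) j)).card ≤
        (((box (0 : Site d) W).filter fun k => cs < c k).sigma
          fun k => box k (4 * M + 4)).card := by
      refine Finset.card_le_card_of_injOn
        (fun p => (⟨u (kk p.1) p.2, kk p.1⟩ : (_ : Site d) × Site d)) (fun p hp => ?_)
        (fun p hp p' hp' he => ?_)
      · rw [Finset.mem_coe, Finset.mem_sigma, hTe, Finset.mem_filter, Finset.mem_filter] at hp
        have hp1 := Finset.mem_inter.2 ⟨hp.1.2.1.2, hkk1 _ hp.1.1⟩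
        rw [Finset.mem_coe, Finset.mem_sigma, Finset.mem_filter]
        exact ⟨⟨hu1 _ hp1 _ hp.2.1, hp.2.2⟩, hu2 _ hp1 _ hp.2.1⟩
      · rw [Finset.mem_coe, Finset.mem_sigma, hTe, Finset.mem_filter, Finset.mem_filter] at hp hp'
        have hp1 := Finset.mem_inter.2 ⟨hp.1.2.1.2, hkk1 _ hp.1.1⟩
        simp only [Sigma.mk.injEq, heq_eq_eq] at he
        obtain ⟨he1, he2⟩ := he
        have e1 : p.1 = p'.1 := hinj _ hp.1.1 _ hp'.1.1 hp.1.2.1.1 hp'.1.2.1.1 he2
        rw [← he2] at he1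
        have e2 : p.2 = p'.2 := hdist _ hp1 _ hp.2.1 _ hp'.2.1 he1
        exact Sigma.ext e1 (heq_of_eq e2)
    have h3 : (((box (0 : Site d) W).filter fun k => cs < c k).sigma
          fun k => box k (4 * M + 4)).card =
        ((box (0 : Site d) W).filter fun k => cs < c k).card * (8 * M + 9) ^ d := by
      rw [Finset.card_sigma, Finset.sum_congr rfl fun k _ => card_box k (4 * M + 4),
        Finset.sum_const, smul_eq_mul]
      have : 2 * (4 * M + 4) + 1 = 8 * M + 9 := by ring
      rw [this]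
    rw [h3] at h2
    have h4 : Te.card * M ≤ 2 * (((box (0 : Site d) W).filter fun k => cs < c k).card *
        (8 * M + 9) ^ d) := by omega
    have h5 : (Te.card : ℝ) * M ≤ 2 * ((((box (0 : Site d) W).filter fun k => cs < c k).card : ℝ) *
        (8 * M + 9) ^ d) := by exact_mod_cast h4
    refine h5.trans ?_
    exact mul_le_mul_of_nonneg_left (mul_le_mul_of_nonneg_right hSW (by positivity)) (by norm_num)
  -- end
  have hM0 : (0 : ℝ) < M := by exact_mod_cast hM
  have hC' : (Tc.card : ℝ) ≤ 2 * (2 * W + 1) ^ d / M := by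
    rw [le_div_iff₀ hM0]
    exact hC
  have hE' : (Te.card : ℝ) ≤ 2 * (8 * M + 9) ^ d / M *
      ∑ k ∈ box (0 : Site d) W, (c k / cs) ^ q := by
    have : (Te.card : ℝ) ≤ 2 * ((∑ k ∈ box (0 : Site d) W, (c k / cs) ^ q) *
      (8 * M + 9) ^ d) / M := by
      rw [le_div_iff₀ hM0]
      exact hE
    refine this.trans (le_of_eq ?_)
    ring
  have hWc : ((W : ℕ) : ℝ) = n + 4 * M + 3 := by
    rw [hW]
    push_cast
    ring
  rw [hWc] at hC'
  calc (m : ℝ) ^ d ≤ Ta.card + (Tb.card + (Tc.card + Te.card)) := hcard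
    _ ≤ 2 ^ d * ∑ k ∈ box (0 : Site d) W, (c k / cs) ^ q +
        (((box (0 : Site d) n) \ G).card + (2 * (2 * (n + 4 * M + 3) + 1) ^ d / M +
        2 * (8 * M + 9) ^ d / M * ∑ k ∈ box (0 : Site d) W, (c k / cs) ^ q)) := by
        gcongr
    _ = _ := by ring

end Pool.Agent.LE.H96C
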