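import Pool.Agent.LE.StmtsC
import Pool.Agent.Helper59_LE.Detx
import Pool.Agent.Helper96_LEC.Cnt

/-!
# DTU: on the good event the decay about one site implies the decay about all sites near it
-/

set_option autoImplicit false

open MeasureTheory ProbabilityTheory Function

open scoped ENNReal BigOperators

noncomputable section

namespace Pool.Agent.LE.H96C

open Pool.Agent.Anderson Pool.Agent.Loc Pool.Agent.Mob Pool.Agent.Helper54.Bal
open Pool.Agent.LE.H83A (big exK sd_sm sd_sm_eq sm_add sd_zero_add DL_comm)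
open Pool.Agent.LE.H59 (exY2)

variable {d : ℕ}

/-- the two comparisons on the good event, `c = η K`, `L = Q₁ ℓ` -/
theorem cmpU (fvd : FvdStmt) {η : ℝ} {K : ℕ} (hη : 0 < η) (hK : 1 ≤ K) {L₀ : ℕ}
    (hbig : ∀ L : ℕ, L₀ ≤ L →
      1 + 2 * d * (2 * L + 1) ^ d * Real.exp (η * K * L) ≤ Real.exp (2 * (η * K) * L))
    {V : Site d → ℝ} {N Q₁ ℓ : ℕ} {a : Site d} {E : ℝ} (hQ : 1 ≤ Q₁) (hℓ : 1 ≤ ℓ)
    (hL₀ : L₀ ≤ Q₁ * ℓ) (hsub : box a (12 * (K * Q₁ * ℓ)) ⊆ box 0 N)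
    (hG : GoodU V N (K * Q₁) ℓ a E η) {t : Site d} (ht : sd a t ≤ 8 * (K * Q₁ * ℓ)) :
    (RM V (box t (Q₁ * ℓ)) E).det ≠ 0 ∧
    (∀ κ : ℝ, (∀ u, sd t u = Q₁ * ℓ →
        |gr V (box t (Q₁ * ℓ)) E t u| ≤ Real.exp (-κ * (Q₁ * ℓ : ℕ))) →
      ∀ u, (sd t u = Q₁ * ℓ ∨ sd t u = Q₁ * ℓ + 1) →
        (κ - 2 * (η * K)) * (Q₁ * ℓ : ℕ) ≤ DL (box 0 N) E V t u) ∧
    (∀ κ : ℝ, (∀ u, (sd t u = Q₁ * ℓ ∨ sd t u = Q₁ * ℓ + 1) →
        κ * (Q₁ * ℓ : ℕ) ≤ DL (box 0 N) E V t u) →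
      ∀ u, sd t u = Q₁ * ℓ →
        |gr V (box t (Q₁ * ℓ)) E t u| ≤ Real.exp (-(κ - 2 * (η * K)) * (Q₁ * ℓ : ℕ))) := by
  obtain ⟨g1, g2, g3, g4, g5, g6⟩ := hG
  obtain ⟨L, hLdef⟩ : ∃ L, L = Q₁ * ℓ := ⟨_, rfl⟩
  have hQL : K * Q₁ * ℓ = K * L := by rw [hLdef, Nat.mul_assoc]
  have hQLR : η * (((K * Q₁ : ℕ) : ℝ) * ℓ) = η * K * L := by
    rw [hLdef]
    push_cast
    ring
  rw [hQLR] at g2 g3 g4 g5 g6
  rw [hQL] at g2 g3 g6 hsub ht
  rw [← hLdef] at hL₀ ⊢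
  have hL1 : 1 ≤ L := by rw [hLdef]; exact Nat.mul_pos hQ hℓ
  have hKL : L ≤ K * L := Nat.le_mul_of_pos_left _ (by omega)
  have hbig' := hbig L hL₀
  have hT : (0 : ℝ) ≤ Real.exp (η * K * L) := (Real.exp_pos _).le
  have sub12 : box t (L + 1) ⊆ box a (12 * (K * L)) := by
    intro x hx
    rw [mem_box] at hx ⊢
    have := sd_triangle a t x
    omega
  have h8 := g6 L hKL t (mem_box.2 ht)
  have hf := fun A : ℝ => fun hA : 0 ≤ A => fvd d V (box 0 N) t L E (Real.exp (η * K * L)) A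
    hT hA (sub12.trans hsub) g1 h8.1 h8.2 (fun x hx y hy => (g2 x (sub12 hx) y (sub12 hy)).2)
  have htin : t ∈ box a (12 * (K * L)) := by
    rw [mem_box]
    omega
  refine ⟨h8.1, fun κ h u hu => ?_, fun κ h u hu => ?_⟩
  · have h1 := ((hf (Real.exp (-κ * L)) (Real.exp_pos _).le).1 h u hu).trans
      (mul_le_mul_of_nonneg_right hbig' (Real.exp_pos _).le)
    have hu' : u ∈ box a (12 * (K * L)) := by
      apply sub12
      rw [mem_box]
      omega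
    have hne := (g2 t htin u hu').1
    rw [← Real.exp_add] at h1
    unfold DL
    have h2 := Real.log_le_log (abs_pos.2 hne) h1
    rw [Real.log_exp] at h2
    linarith
  · have h0 : ∀ u, (sd t u = L ∨ sd t u = L + 1) →
        |gr V (box 0 N) E t u| ≤ Real.exp (-κ * L) := by
      intro u hu
      have hu' : u ∈ box a (12 * (K * L)) := by
        apply sub12
        rw [mem_box]
        omega
      have hne := (g2 t htin u hu').1
      have h1 := h u hu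
      unfold DL at h1
      rw [← Real.exp_log (abs_pos.2 hne)]
      exact Real.exp_le_exp.2 (by linarith)
    refine ((hf (Real.exp (-κ * L)) (Real.exp_pos _).le).2 h0 u hu).trans ?_
    refine (mul_le_mul_of_nonneg_right hbig' (Real.exp_pos _).le).trans ?_
    rw [← Real.exp_add]
    exact Real.exp_le_exp.2 (by linarith)

/-- DTU -/
theorem dtu (fvd : FvdStmt) : DtuStmt := by
  intro d η K hd hη hK
  have : NeZero d := ⟨by omega⟩
  have hc : 0 < η * K := mul_pos hη (by exact_mod_cast hK)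
  obtain ⟨L₀, _, hbig⟩ := big d (η * K) hc
  refine ⟨L₀, fun κ V N Q₁ ℓ a E hQ hℓ hL₀ hsub hG k hk hSG s hs => ?_⟩
  rw [mem_box] at hk hs
  have hcmp := fun {t : Site d} (ht : sd a t ≤ 8 * (K * Q₁ * ℓ)) =>
    cmpU fvd hη hK hbig hQ hℓ hL₀ hsub hG (t := t) ht
  obtain ⟨g1, g2, g3, g4, g5, g6⟩ := hG
  obtain ⟨L, hLdef⟩ : ∃ L, L = Q₁ * ℓ := ⟨_, rfl⟩
  have hQL : K * Q₁ * ℓ = K * L := by rw [hLdef, Nat.mul_assoc]
  have hQLR : η * (((K * Q₁ : ℕ) : ℝ) * ℓ) = η * K * L := by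
    rw [hLdef]
    push_cast
    ring
  have hL1 : 1 ≤ L := by rw [hLdef]; exact Nat.mul_pos hQ hℓ
  have hKL : L ≤ K * L := Nat.le_mul_of_pos_left _ (by omega)
  have hℓL : ℓ ≤ L := by rw [hLdef]; exact Nat.le_mul_of_pos_left _ (by omega)
  have hQK : Q₁ ≤ K * Q₁ := Nat.le_mul_of_pos_left _ (by omega)
  rw [hQLR] at g2 g3 g4 g5 g6
  rw [hQL] at g2 g3 g6 hsub hs
  rw [← hLdef] at hSG ⊢
  have q2 : sd a (a + sm ℓ k) ≤ 8 * (K * Q₁ * ℓ) := by
    calc sd a (a + sm ℓ k) ≤ ℓ * sd 0 k := sd_sm ℓ a k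
      _ ≤ ℓ * (8 * (K * Q₁)) := Nat.mul_le_mul_left ℓ hk
      _ = 8 * (K * Q₁ * ℓ) := by ring
  have c1 := (hcmp q2).2.1 κ (by rw [← hLdef]; exact hSG.2)
  rw [← hLdef] at c1
  -- the coarse sphere about `a + ℓ k`
  have c2 : ∀ y : Site d, sd 0 y = Q₁ →
      (κ - 2 * (η * K)) * L ≤ DL (box 0 N) E V (a + sm ℓ k) (a + sm ℓ k + sm ℓ y) := by
    intro y hy
    refine c1 _ (Or.inl ?_)
    rw [sd_a_pt, hy, hLdef]
    ring
  have c3 : ∀ k' : Site d, sd 0 k' ≤ 8 * (K * Q₁) → ∀ y : Site d, sd 0 y = Q₁ →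
      (κ - 4 * (η * K)) * L ≤ DL (box 0 N) E V (a + sm ℓ k') (a + sm ℓ k' + sm ℓ y) := by
    intro k' hk' y hy
    have h1 := c2 y hy
    have hyb : y ∈ box (0 : Site d) (K * Q₁) := mem_box.2 (by omega)
    have h2 := g5 k (mem_box.2 hk) y hyb
    have h3 := g5 k' (mem_box.2 hk') y hyb
    have h4 := (abs_le.1 h2).1
    have h5 := (abs_le.1 h3).2
    nlinarith
  have c4 : ∀ u, (sd s u = L ∨ sd s u = L + 1) →
      (κ - 8 * (η * K)) * L ≤ DL (box 0 N) E V s u := by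
    intro u hu
    obtain ⟨k', hk', hks⟩ := exK hℓ (7 * (K * Q₁)) a s (by
      rw [Nat.mul_assoc, hQL]
      exact hs)
    have t1 := sd_triangle (a + sm ℓ k') s u
    have t2 := sd_triangle s (a + sm ℓ k') u
    rw [sd_comm s (a + sm ℓ k')] at t2
    obtain ⟨y, hy, hyu⟩ := exY2 (Q := Q₁) hℓ (a + sm ℓ k') u (by omega) (by omega)
    have hky : a + sm ℓ k' + sm ℓ y = a + sm ℓ (k' + y) := by rw [sm_add, add_assoc]
    have q1 : sd 0 (k' + y) ≤ 8 * (K * Q₁) := by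
      have := sd_zero_add k' y
      omega
    have q2' : sd a (a + sm ℓ k') ≤ 7 * (K * L) := by
      calc sd a (a + sm ℓ k') ≤ ℓ * sd 0 k' := sd_sm ℓ a k'
        _ ≤ ℓ * (7 * (K * Q₁)) := Nat.mul_le_mul_left ℓ hk'
        _ = 7 * (K * L) := by rw [hLdef]; ring
    have q3 : sd a (a + sm ℓ (k' + y)) ≤ 8 * (K * L) := by
      calc sd a (a + sm ℓ (k' + y)) ≤ ℓ * sd 0 (k' + y) := sd_sm ℓ a (k' + y)
        _ ≤ ℓ * (8 * (K * Q₁)) := Nat.mul_le_mul_left ℓ q1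
        _ = 8 * (K * L) := by rw [hLdef]; ring
    have q4 : sd a u ≤ 10 * (K * L) := by
      have := sd_triangle a s u
      omega
    have b1 : a + sm ℓ k' ∈ box a (12 * (K * L)) := mem_box.2 (by omega)
    have b2 : a + sm ℓ (k' + y) ∈ box a (12 * (K * L)) := mem_box.2 (by omega)
    have b3 : s ∈ box a (12 * (K * L)) := mem_box.2 (by omega)
    have b4 : u ∈ box a (12 * (K * L)) := mem_box.2 (by omega)
    have r1 := c3 k' (by omega) y hy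
    rw [hky] at r1 hyu
    have r2 := g3 (a + sm ℓ k') b1 s b3 (a + sm ℓ (k' + y)) b2
    have r3 := g3 s b3 u b4 (a + sm ℓ (k' + y)) b2
    have r4 := g4 k' (mem_box.2 (by omega)) s (mem_box.2 (by omega))
    have r5 := g4 (k' + y) (mem_box.2 (by omega)) u (mem_box.2 (by omega))
    rw [DL_comm] at r5
    linarith
  have hs8 : sd a s ≤ 8 * (K * Q₁ * ℓ) := by
    rw [hQL]
    omega
  obtain ⟨e1, _, e3⟩ := hcmp hs8
  rw [← hLdef] at e1 e3
  refine ⟨e1, fun u hu => (e3 _ c4 u hu).trans ?_⟩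
  rw [Real.exp_le_exp]
  have : 0 ≤ η * K * L := by positivity
  linarith

end Pool.Agent.LE.H96C
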