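import Pool.Agent.Helper42_LE.Critical
import Pool.Agent.Helper93_LE.Fin

/-!
# The Lyapunov exponent is an even function of the energy; the edge of the localized phase
-/

set_option autoImplicit false
set_option linter.unusedSectionVars false

open MeasureTheory ProbabilityTheory Function Filter

open scoped ENNReal NNReal BigOperators Topology

noncomputable section

namespace Pool.Agent.LE.H96C

open Pool.Agent.Anderson Pool.Agent.Loc Pool.Agent.Mob Pool.Agent.Helper54.Bal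

variable {d : ℕ}

/-- the staggered sign -/
def sg (x : Site d) : ℝ := if Even (∑ i, x i) then 1 else -1

theorem sg_sq (x : Site d) : sg x * sg x = 1 := by
  unfold sg
  split_ifs <;> norm_num

theorem sg_abs (x : Site d) : |sg x| = 1 := by
  unfold sg
  split_ifs <;> norm_num

theorem sum_single (x : Site d) (i : Fin d) (c : ℤ) :
    ∑ j, (x + Pi.single i c : Site d) j = ∑ j, x j + c := by
  simp only [Pi.add_apply, Finset.sum_add_distrib]
  rw [Finset.sum_pi_single' i c]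
  simp

theorem sg_add (x : Site d) (i : Fin d) : sg (x + Pi.single i 1) = - sg x := by
  have h : Even (∑ j, (x + Pi.single i 1 : Site d) j) ↔ ¬ Even (∑ j, x j) := by
    rw [sum_single]
    exact Int.even_add_one
  unfold sg
  by_cases h2 : Even (∑ j, x j)
  · rw [if_pos h2, if_neg (fun h3 => (h.1 h3) h2)]
  · rw [if_neg h2, if_pos (h.2 h2)]
    norm_num

theorem sg_sub (x : Site d) (i : Fin d) : sg (x - Pi.single i 1) = - sg x := by
  have h := sg_add (x - Pi.single i 1) i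
  rw [sub_add_cancel] at h
  linarith

theorem sg_hop (x y : Site d) : sg x * hop x y * sg y = - hop x y := by
  unfold hop
  rw [Finset.mul_sum, Finset.sum_mul, ← Finset.sum_neg_distrib]
  refine Finset.sum_congr rfl fun i _ => ?_
  have h0 := sg_sq x
  have h1 : sg x * (if y = x + Pi.single i 1 then (1 : ℝ) else 0) * sg y =
      -(if y = x + Pi.single i 1 then (1 : ℝ) else 0) := by
    split_ifs with h
    · rw [h, sg_add]
      linarith
    · simp
  have h2 : sg x * (if y = x - Pi.single i 1 then (1 : ℝ) else 0) * sg y =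
      -(if y = x - Pi.single i 1 then (1 : ℝ) else 0) := by
    split_ifs with h
    · rw [h, sg_sub]
      linarith
    · simp
  rw [mul_add, add_mul, h1, h2]
  ring

theorem RM_neg (V : Site d → ℝ) (Λ : Finset (Site d)) (E : ℝ) (x y : Λ) :
    RM (fun z => - V z) Λ (-E) x y = - (sg (x : Site d) * RM V Λ E x y * sg (y : Site d)) := by
  have h := sg_hop (x : Site d) (y : Site d)
  unfold RM HM
  simp only [Matrix.sub_apply, Matrix.smul_apply, Matrix.of_apply, Matrix.one_apply, smul_eq_mul]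
  by_cases hxy : x = y
  · subst hxy
    have h0 := sg_sq (x : Site d)
    simp only [if_true]
    linear_combination (E - V x) * h0 - h
  · simp only [hxy, if_false]
    linear_combination -h

theorem inv_neg_aux (V : Site d → ℝ) (Λ : Finset (Site d)) (E : ℝ) (hdet : (RM V Λ E).det ≠ 0) :
    (RM (fun z => - V z) Λ (-E)).det ≠ 0 ∧ ∀ x y : Λ, (RM (fun z => - V z) Λ (-E))⁻¹ x y =
      - (sg (x : Site d) * (RM V Λ E)⁻¹ x y * sg (y : Site d)) := by
  have h1 : RM V Λ E * (RM V Λ E)⁻¹ = 1 := Matrix.mul_nonsing_inv _ (isUnit_iff_ne_zero.2 hdet)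
  obtain ⟨N, hN⟩ : ∃ N : Matrix Λ Λ ℝ, N = Matrix.of fun (x y : Λ) =>
      - (sg (x : Site d) * (RM V Λ E)⁻¹ x y * sg (y : Site d)) := ⟨_, rfl⟩
  have h2 : RM (fun z => - V z) Λ (-E) * N = 1 := by
    ext x y
    rw [Matrix.mul_apply, hN]
    simp only [Matrix.of_apply, RM_neg]
    have h3 : ∀ z : Λ, -(sg (x : Site d) * RM V Λ E x z * sg (z : Site d)) *
        -(sg (z : Site d) * (RM V Λ E)⁻¹ z y * sg (y : Site d)) =
        sg (x : Site d) * (RM V Λ E x z * (RM V Λ E)⁻¹ z y) * sg (y : Site d) := by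
      intro z
      linear_combination (sg (x : Site d) * (RM V Λ E x z * (RM V Λ E)⁻¹ z y) * sg (y : Site d)) *
        sg_sq (z : Site d)
    rw [Finset.sum_congr rfl fun z _ => h3 z, ← Finset.sum_mul, ← Finset.mul_sum,
      ← Matrix.mul_apply, h1, Matrix.one_apply]
    split_ifs with hxy
    · rw [hxy, mul_one, sg_sq]
    · simp
  have h4 : (RM (fun z => - V z) Λ (-E))⁻¹ = N := Matrix.inv_eq_right_inv h2
  refine ⟨?_, fun x y => by rw [h4, hN]; rfl⟩
  have h5 := congrArg Matrix.det h2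
  rw [Matrix.det_mul, Matrix.det_one] at h5
  exact left_ne_zero_of_mul_eq_one h5

theorem gr_neg {V : Site d → ℝ} {Λ : Finset (Site d)} {E : ℝ} (hdet : (RM V Λ E).det ≠ 0)
    (x y : Site d) : |gr (fun z => - V z) Λ (-E) x y| = |gr V Λ E x y| := by
  unfold gr
  split_ifs with h
  · rw [(inv_neg_aux V Λ E hdet).2, abs_neg, abs_mul, abs_mul, sg_abs, sg_abs, one_mul, mul_one]
  · rfl

theorem SG_neg_aux {V : Site d → ℝ} {L : ℕ} {κ E : ℝ} {v : Site d} (h : SG V L κ E v) :
    SG (fun z => - V z) L κ (-E) v :=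
  ⟨(inv_neg_aux V (box v L) E h.1).1, fun u hu => by rw [gr_neg h.1]; exact h.2 u hu⟩

theorem SG_neg (V : Site d → ℝ) (L : ℕ) (κ E : ℝ) (v : Site d) :
    SG (fun z => - V z) L κ (-E) v ↔ SG V L κ E v := by
  refine ⟨fun h => ?_, SG_neg_aux⟩
  have h1 := SG_neg_aux h
  simp only [neg_neg] at h1
  exact h1

/-- the law of the potential -/
theorem PP_apply (σ : ℝ) {A : Set (Site d → ℝ)} (hA : MeasurableSet A) :
    PP d (gl σ) A = (Measure.infinitePi fun _ : Site d => gaussianReal 0 1)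
      {ξ : Site d → ℝ | (fun x => σ * ξ x) ∈ A} := by
  have hm : ∀ y : Site d, Measurable fun ξ : Site d → ℝ => ξ y := fun y => measurable_pi_apply y
  have hlaw : ∀ y : Site d, (Measure.infinitePi fun _ : Site d => gaussianReal 0 1).map
      (fun ξ => ξ y) = gaussianReal 0 1 := fun y =>
    (measurePreserving_eval_infinitePi (fun _ : Site d => gaussianReal 0 1) y).map_eq
  have hind : iIndepFun (fun (y : Site d) (ξ : Site d → ℝ) => ξ y)
      (Measure.infinitePi fun _ : Site d => gaussianReal 0 1) :=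
    iIndepFun_infinitePi (P := fun _ : Site d => gaussianReal 0 1) (X := fun _ t => t)
      (fun _ => measurable_id)
  have h := Pool.Agent.Mob.H42.map_eq_PP hm hlaw hind σ
  rw [← h, Measure.map_apply (Pool.Agent.Mob.H42.measurable_W hm σ) hA]
  rfl

theorem PP_SG_neg (σ κ E : ℝ) (L : ℕ) :
    PP d (gl σ) {V | SG V L κ (-E) 0} = PP d (gl σ) {V | SG V L κ E 0} := by
  rw [← Pool.Agent.LE.H42J.PP_neg σ, PP_apply (-σ) (Pool.Agent.LE.H93.meas_SG L κ (-E) 0),
    Pool.Agent.LE.H42J.PP_neg σ, PP_apply σ (Pool.Agent.LE.H93.meas_SG L κ E 0)]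
  congr 1
  ext ξ
  have h := SG_neg (fun x : Site d => σ * ξ x) L κ E 0
  simp only [Set.mem_ofPred_eq]
  rw [← h]
  have e : (fun x : Site d => -σ * ξ x) = fun z => -(σ * ξ z) := by
    funext x
    ring
  rw [e]

theorem PP_SG_neg' (σ κ E : ℝ) (L : ℕ) :
    PP d (gl σ) {V | ¬ SG V L κ (-E) 0} = PP d (gl σ) {V | ¬ SG V L κ E 0} := by
  have e1 : {V : Site d → ℝ | ¬ SG V L κ (-E) 0} = {V | SG V L κ (-E) 0}ᶜ := rfl
  have e2 : {V : Site d → ℝ | ¬ SG V L κ E 0} = {V | SG V L κ E 0}ᶜ := rfl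
  rw [e1, e2, prob_compl_eq_one_sub (Pool.Agent.LE.H93.meas_SG L κ (-E) 0),
    prob_compl_eq_one_sub (Pool.Agent.LE.H93.meas_SG L κ E 0), PP_SG_neg]

theorem lya_negE {σ E g : ℝ} (h : LyaAt d σ E g) : LyaAt d σ (-E) g := by
  refine ⟨h.1, fun ε hε => ?_⟩
  simp only [PP_SG_neg, PP_SG_neg']
  exact h.2 ε hε

/-- the Lyapunov exponent is an even function of the energy -/
theorem lya_even {γ : ℝ → ℝ → ℝ} (hγ : ∀ σ, σ ≠ 0 → ∀ E, LyaAt d σ E (γ σ E)) {σ : ℝ}
    (hσ : σ ≠ 0) (E : ℝ) : γ σ (-E) = γ σ E :=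
  Pool.Agent.LE.H42J.lya_unique (hγ σ hσ (-E)) (lya_negE (hγ σ hσ E))

/-- the edge of the localized phase -/
theorem edge {g : ℝ → ℝ} (h0 : ∀ E, 0 ≤ g E) (hcont : Continuous g) (heven : ∀ E, g (-E) = g E)
    (hlarge : ∃ K : ℝ, ∀ E : ℝ, K < |E| → 0 < g E) (hz : ∃ E, g E = 0) :
    ∃ E₀ : ℝ, 0 ≤ E₀ ∧ g E₀ = 0 ∧ g (-E₀) = 0 ∧ ∀ E, E₀ < |E| → 0 < g E := by
  obtain ⟨K, hK⟩ := hlarge
  obtain ⟨E₁, hE₁⟩ := hz
  have habs : ∀ E, g |E| = g E := by
    intro E
    rcases abs_choice E with h | h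
    · rw [h]
    · rw [h, heven]
  have hcl : IsClosed {E : ℝ | 0 ≤ E ∧ g E = 0} :=
    (isClosed_le continuous_const continuous_id).inter (isClosed_eq hcont continuous_const)
  have hbdd : BddAbove {E : ℝ | 0 ≤ E ∧ g E = 0} := by
    refine ⟨K, fun E hE => ?_⟩
    by_contra hcon
    push Not at hcon
    have := hK E (by rw [abs_of_nonneg hE.1]; exact hcon)
    rw [hE.2] at this
    exact lt_irrefl _ this
  have hne : {E : ℝ | 0 ≤ E ∧ g E = 0}.Nonempty := ⟨|E₁|, abs_nonneg _, by rw [habs, hE₁]⟩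
  have hmem := hcl.csSup_mem hne hbdd
  refine ⟨_, hmem.1, hmem.2, by rw [heven]; exact hmem.2, fun E hE => ?_⟩
  rcases (h0 E).lt_or_eq with h | h
  · exact h
  · exact absurd (le_csSup hbdd ⟨abs_nonneg E, by rw [habs]; exact h.symm⟩) (not_le.2 hE)

end Pool.Agent.LE.H96C
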